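import Mathlib

set_option autoImplicit false

/-!
Right distributive and centrally essential rings, and facts about abelian groups whose
endomorphism rings have only central idempotents.
-/

namespace Pool.Agent.Q119.Dist

universe u v w

section ring

variable {R : Type u} [Ring R]

/-- The commutation property of centrally essential rings used below. -/
def CE (R : Type u) [Ring R] : Prop :=
  ∀ a : R, a ≠ 0 → ∃ x y : R, (∀ r, r * x = x * r) ∧ (∀ r, r * y = y * r) ∧ y ≠ 0 ∧ a * x = y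

theorem idem_aux (h : CE R) {f : R} (hf : f * f = f) (g : R) : f * g * (1 - f) = 0 := by
  by_contra hne
  obtain ⟨x, y, hx, hy, hy0, hxy⟩ := h _ hne
  apply hy0
  have h1 : f * y = y := by
    rw [← hxy]
    simp only [← mul_assoc, hf]
  have h2 : y * (1 - f) = y := by
    rw [← hxy, mul_assoc, ← hx, ← mul_assoc]
    have : (1 - f) * (1 - f) = 1 - f := by
      rw [mul_sub, mul_one, sub_mul, one_mul, hf]; abel
    rw [mul_assoc (f * g), this]
  rw [← h2, mul_sub, mul_one, ← hy f, h1, sub_self]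

theorem idem_central (h : CE R) {f : R} (hf : f * f = f) (g : R) : f * g = g * f := by
  have h1 := idem_aux h hf g
  have hf' : (1 - f) * (1 - f) = 1 - f := by
    rw [mul_sub, mul_one, sub_mul, one_mul, hf]; abel
  have h2 := idem_aux h hf' g
  have e1 : f * g = f * g * f := by
    rw [mul_sub, mul_one, sub_eq_zero] at h1
    exact h1
  have e2 : g * f = f * g * f := by
    have : (1 : R) - (1 - f) = f := by abel
    rw [this, sub_mul, one_mul, sub_mul, sub_eq_zero] at h2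
    exact h2
  rw [e1, e2]

theorem exists_square_zero (h : CE R) {a b : R} (hab : a * b ≠ b * a) :
    ∃ e c : R, (∀ r, r * e = e * r) ∧ e ≠ 0 ∧ e * e = 0 ∧ e = (a * b - b * a) * c := by
  have main : ∀ e c : R, (∀ r, r * e = e * r) → (∀ r, r * c = c * r) →
      (∀ r, r * (a * e) = a * e * r) → e = (a * b - b * a) * c → e * e = 0 := by
    intro e c he hc hae hec
    have h1 : (a * b - b * a) * e = 0 := by
      rw [sub_mul, mul_assoc, he b, ← mul_assoc, mul_assoc b, hae b, sub_self]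
    nth_rewrite 1 [hec]
    rw [mul_assoc, ← hc e, ← mul_assoc, h1, zero_mul]
  obtain ⟨x, y, hx, hy, hy0, hxy⟩ := h _ (sub_ne_zero.2 hab)
  by_cases hay : a * y = 0
  · exact ⟨y, x, hy, hy0, main y x hy hx (by rw [hay]; simp) hxy.symm, hxy.symm⟩
  · obtain ⟨t, z, ht, hz, hz0, htz⟩ := h _ hay
    have c1 : ∀ r, r * (y * t) = y * t * r := by
      intro r
      rw [← mul_assoc, hy r, mul_assoc, ht r, mul_assoc]
    have c2 : ∀ r, r * (x * t) = x * t * r := by
      intro r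
      rw [← mul_assoc, hx r, mul_assoc, ht r, mul_assoc]
    have c3 : y * t = (a * b - b * a) * (x * t) := by
      rw [← mul_assoc, hxy]
    refine ⟨y * t, x * t, c1, ?_, main _ _ c1 c2 ?_ c3, c3⟩
    · intro h0
      apply hz0
      rw [← htz, mul_assoc, h0, mul_zero]
    · intro r
      rw [← mul_assoc a, htz, hz r]

/-- The lattice of right ideals is distributive. -/
def RD (R : Type u) [Ring R] : Prop :=
  ∀ I J K : Submodule Rᵐᵒᵖ R, I ⊓ (J ⊔ K) = (I ⊓ J) ⊔ (I ⊓ K)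

theorem mem_span_op {a b : R} : b ∈ Submodule.span Rᵐᵒᵖ {a} ↔ ∃ r : R, a * r = b := by
  rw [Submodule.mem_span_singleton]
  constructor
  · rintro ⟨r, hr⟩
    exact ⟨r.unop, hr⟩
  · rintro ⟨r, hr⟩
    exact ⟨MulOpposite.op r, hr⟩

theorem dist_crit (h : RD R) (a b : R) :
    ∃ u v s t : R, u + v = 1 ∧ a * u = b * s ∧ b * v = a * t := by
  have h1 : a ∈ Submodule.span Rᵐᵒᵖ {a} ⊓
      (Submodule.span Rᵐᵒᵖ {b} ⊔ Submodule.span Rᵐᵒᵖ {a - b}) :=
    Submodule.mem_inf.2 ⟨Submodule.mem_span_singleton_self a, Submodule.mem_sup.2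
      ⟨b, Submodule.mem_span_singleton_self b, a - b, Submodule.mem_span_singleton_self _,
        by abel⟩⟩
  rw [h, Submodule.mem_sup] at h1
  obtain ⟨x, ⟨hxa, hxb⟩, y, ⟨hya, hyb⟩, hxy⟩ := h1
  obtain ⟨s, hs⟩ := mem_span_op.1 hxb
  obtain ⟨r, hr⟩ := mem_span_op.1 hya
  obtain ⟨t, ht⟩ := mem_span_op.1 hyb
  refine ⟨1 - t, t, s - t, t - r, by abel, ?_, ?_⟩
  · rw [sub_mul] at ht
    have e1 : a * t = y + b * t := by rw [← ht]; abel
    rw [mul_sub, mul_one, mul_sub, hs, e1]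
    nth_rewrite 1 [← hxy]
    abel
  · rw [mul_sub, hr, ← ht, sub_mul]
    abel

end ring

section ext

/-- Extension of homomorphisms into divisible groups. -/
theorem extend {M : Type v} {N : Type w} {Q : Type u} [AddCommGroup M] [AddCommGroup N]
    [AddCommGroup Q] (hQ : ∀ n : ℤ, n ≠ 0 → ∀ q : Q, ∃ q' : Q, n • q' = q) (i : M →+ N)
    (hi : Function.Injective i) (g : M →+ Q) : ∃ h : N →+ Q, ∀ m, h (i m) = g m := by
  let _ : DivisibleBy Q ℤ := divisibleByOfSMulRightSurj _ _ (fun hn q => hQ _ hn q)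
  obtain ⟨h, hh⟩ := (Module.Baer.of_divisible Q).extension_property_addMonoidHom i hi g
  exact ⟨h, fun m => DFunLike.congr_fun hh m⟩

/-- The homomorphism from a cyclic subgroup. -/
theorem cyclic_hom {N : Type w} {Q : Type u} [AddCommGroup N] [AddCommGroup Q] (b : N) (t : Q)
    (hbt : ∀ n : ℤ, n • b = 0 → n • t = 0) :
    ∃ g : AddSubgroup.zmultiples b →+ Q, ∀ (n : ℤ) (hn : n • b ∈ AddSubgroup.zmultiples b),
      g ⟨n • b, hn⟩ = n • t := by
  classical
  have hex : ∀ x : AddSubgroup.zmultiples b, ∃ n : ℤ, n • b = x := fun x =>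
    AddSubgroup.mem_zmultiples_iff.1 x.2
  choose c hc using hex
  have key : ∀ (n : ℤ) (x : AddSubgroup.zmultiples b), n • b = x → c x • t = n • t := by
    intro n x hx
    have h1 : (c x - n) • b = 0 := by rw [sub_smul, hc, hx, sub_self]
    have h2 := hbt _ h1
    rw [sub_smul, sub_eq_zero] at h2
    exact h2
  refine ⟨⟨⟨fun x => c x • t, ?_⟩, ?_⟩, ?_⟩
  · rw [key 0 0 (by simp)]; simp
  · intro x y
    change c (x + y) • t = c x • t + c y • t
    rw [key (c x + c y) (x + y) (by rw [add_smul, hc, hc]; rfl), add_smul]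
  · intro n hn
    exact key n ⟨n • b, hn⟩ rfl

/-- Extension from a cyclic subgroup. -/
theorem extend_cyclic {N : Type w} {Q : Type u} [AddCommGroup N]
    [AddCommGroup Q] (hQ : ∀ n : ℤ, n ≠ 0 → ∀ q : Q, ∃ q' : Q, n • q' = q) (b : N) (t : Q)
    (hbt : ∀ n : ℤ, n • b = 0 → n • t = 0) : ∃ h : N →+ Q, h b = t := by
  obtain ⟨g, hg⟩ := cyclic_hom b t hbt
  obtain ⟨h, hh⟩ := extend hQ (AddSubgroup.zmultiples b).subtype Subtype.val_injective g
  refine ⟨h, ?_⟩
  have h1 := hh ⟨(1 : ℤ) • b, AddSubgroup.mem_zmultiples_iff.2 ⟨1, rfl⟩⟩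
  rw [hg] at h1
  simpa using h1

end ext

section grp

variable {A : Type u} [AddCommGroup A]

/-- A subgroup is divisible. -/
def Div (D : AddSubgroup A) : Prop := ∀ n : ℤ, n ≠ 0 → ∀ x ∈ D, ∃ y ∈ D, n • y = x

theorem div_of_prime {D : AddSubgroup A}
    (h : ∀ q : ℕ, q.Prime → ∀ x ∈ D, ∃ y ∈ D, (q : ℤ) • y = x) : Div D := by
  have h1 : ∀ n : ℕ, n ≠ 0 → ∀ x ∈ D, ∃ y ∈ D, (n : ℤ) • y = x := by
    intro n
    induction n using Nat.recOnMul with
    | zero => exact fun h => absurd rfl h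
    | one => exact fun _ x hx => ⟨x, hx, by simp⟩
    | prime q hq => exact fun _ => h q hq
    | mul a b iha ihb =>
      intro hab x hx
      obtain ⟨y, hy, hyx⟩ := iha (left_ne_zero_of_mul hab) x hx
      obtain ⟨z, hz, hzy⟩ := ihb (right_ne_zero_of_mul hab) y hy
      refine ⟨z, hz, ?_⟩
      rw [Nat.cast_mul, mul_smul, hzy, hyx]
  intro n hn x hx
  obtain ⟨m, rfl | rfl⟩ := n.eq_nat_or_neg
  · exact h1 m (by exact_mod_cast hn) x hx
  · obtain ⟨y, hy, hyx⟩ := h1 m (by rintro rfl; simp at hn) x hx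
    exact ⟨-y, D.neg_mem hy, by rw [neg_smul, smul_neg, neg_neg, hyx]⟩

/-- A divisible subgroup is a retract. -/
theorem exists_retract {E : AddSubgroup A} (hE : Div E) :
    ∃ f : AddMonoid.End A, (∀ a, f a ∈ E) ∧ ∀ a ∈ E, f a = a := by
  have hQ : ∀ n : ℤ, n ≠ 0 → ∀ q : E, ∃ q' : E, n • q' = q := by
    rintro n hn ⟨q, hq⟩
    obtain ⟨y, hy, hyq⟩ := hE n hn q hq
    exact ⟨⟨y, hy⟩, Subtype.ext hyq⟩
  obtain ⟨h, hh⟩ := extend hQ E.subtype Subtype.val_injective (AddMonoidHom.id E)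
  refine ⟨E.subtype.comp h, fun a => (h a).2, fun a ha => ?_⟩
  exact congrArg Subtype.val (hh ⟨a, ha⟩)

variable (hI : ∀ f : AddMonoid.End A, f * f = f → ∀ g, f * g = g * f)

include hI

theorem retract_comm {E : AddSubgroup A} {f : AddMonoid.End A} (h1 : ∀ a, f a ∈ E)
    (h2 : ∀ a ∈ E, f a = a) (g : AddMonoid.End A) (a : A) : f (g a) = g (f a) := by
  have hff : f * f = f := by
    apply AddMonoidHom.ext
    intro a
    exact h2 _ (h1 a)
  exact DFunLike.congr_fun (hI f hff g) a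

theorem retract_inv {E : AddSubgroup A} {f : AddMonoid.End A} (h1 : ∀ a, f a ∈ E)
    (h2 : ∀ a ∈ E, f a = a) (g : AddMonoid.End A) {a : A} (ha : a ∈ E) : g a ∈ E := by
  have := retract_comm hI h1 h2 g a
  rw [h2 a ha] at this
  rw [← this]
  exact h1 _

theorem retract_zero {E : AddSubgroup A} {f : AddMonoid.End A} (h1 : ∀ a, f a ∈ E)
    (h2 : ∀ a ∈ E, f a = a) (g : AddMonoid.End A) (hg1 : ∀ a, g a ∈ E)
    (hg2 : ∀ a ∈ E, g a = 0) (a : A) : g a = 0 := by
  have := retract_comm hI h1 h2 g a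
  rw [hg2 _ (h1 a), h2 _ (hg1 a)] at this
  exact this

/-- An element of the kernel of a retraction onto a divisible subgroup. -/
theorem ker_retract {E : AddSubgroup A} (hE : Div E) {f : AddMonoid.End A} (h1 : ∀ a, f a ∈ E)
    (h2 : ∀ a ∈ E, f a = a) {b : A} (hb : f b = 0) {t : A} (ht : t ∈ E)
    (hbt : ∀ n : ℤ, n • b = 0 → n • t = 0) : t = 0 := by
  have hQ : ∀ n : ℤ, n ≠ 0 → ∀ q : E, ∃ q' : E, n • q' = q := by
    rintro n hn ⟨q, hq⟩
    obtain ⟨y, hy, hyq⟩ := hE n hn q hq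
    exact ⟨⟨y, hy⟩, Subtype.ext hyq⟩
  obtain ⟨h, hh⟩ := extend_cyclic hQ b (⟨t, ht⟩ : E) (fun n hn => Subtype.ext (hbt n hn))
  let g0 : AddMonoid.End A := E.subtype.comp h
  let g : AddMonoid.End A := g0 * (1 - f)
  have hg : ∀ a, g a = (h (a - f a) : A) := fun a => rfl
  have h3 := retract_zero hI h1 h2 g (fun a => by rw [hg]; exact (h _).2)
    (fun a ha => by rw [hg, h2 a ha, sub_self, map_zero]; rfl) b
  rw [hg, hb, sub_zero, hh] at h3
  exact h3

end grp

section cyc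

variable {A : Type u} [AddCommGroup A]

/-- A homomorphism from the rational numbers. -/
theorem exists_rat {D : AddSubgroup A} (hD : Div D) {x : A} (hx : x ∈ D) :
    ∃ φ : ℚ →+ A, φ 1 = x ∧ ∀ q, φ q ∈ D := by
  have hQ : ∀ n : ℤ, n ≠ 0 → ∀ q : D, ∃ q' : D, n • q' = q := by
    rintro n hn ⟨q, hq⟩
    obtain ⟨y, hy, hyq⟩ := hD n hn q hq
    exact ⟨⟨y, hy⟩, Subtype.ext hyq⟩
  obtain ⟨h, hh⟩ := extend_cyclic hQ (1 : ℚ) (⟨x, hx⟩ : D) (fun n hn => by
    have : n = 0 := by simpa using hn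
    rw [this, zero_smul])
  exact ⟨D.subtype.comp h, congrArg Subtype.val hh, fun q => (h q).2⟩

theorem div_range (φ : ℚ →+ A) : Div φ.range := by
  rintro n hn _ ⟨q, rfl⟩
  refine ⟨φ (q / n), ⟨_, rfl⟩, ?_⟩
  rw [← map_zsmul]
  congr 1
  have : (n : ℚ) ≠ 0 := by exact_mod_cast hn
  rw [zsmul_eq_mul]
  field_simp

theorem loc_cyclic (φ : ℚ →+ A) {s t : A} (hs : s ∈ φ.range) (ht : t ∈ φ.range) :
    ∃ (w : A) (i j : ℤ), s = i • w ∧ t = j • w := by
  obtain ⟨q, rfl⟩ := hs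
  obtain ⟨r, rfl⟩ := ht
  have hq : (q.den : ℚ) ≠ 0 := by exact_mod_cast q.den_ne_zero
  have hr : (r.den : ℚ) ≠ 0 := by exact_mod_cast r.den_ne_zero
  refine ⟨φ (1 / (q.den * r.den)), q.num * r.den, r.num * q.den, ?_, ?_⟩
  · rw [← map_zsmul]
    congr 1
    rw [zsmul_eq_mul]
    push_cast
    have := Rat.mul_den_eq_num q
    rw [← this]
    field_simp
  · rw [← map_zsmul]
    congr 1
    rw [zsmul_eq_mul]
    push_cast
    have := Rat.mul_den_eq_num r
    rw [← this]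
    field_simp

/-- Endomorphisms act on torsion elements of locally cyclic invariant subgroups as
multiplications by integers. -/
theorem torsion_mul {g : AddMonoid.End A} {z w : A} {i j : ℤ} {N : ℤ} (hN : N ≠ 0)
    (hw : N • w = 0) (hz : z = i • w) (hgz : g z = j • w) : ∃ m : ℤ, g z = m • z := by
  set M := addOrderOf w with hM
  have hM0 : M ≠ 0 := by
    intro h
    rw [hM, addOrderOf_eq_zero_iff] at h
    apply h
    rw [isOfFinAddOrder_iff_zsmul_eq_zero]
    exact ⟨N, hN, hw⟩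
  have hMw : (M : ℤ) • w = 0 := by
    rw [natCast_zsmul, hM, addOrderOf_nsmul_eq_zero]
  set d : ℤ := (Int.gcd i M : ℤ) with hd
  have hd0 : d ≠ 0 := by
    intro h
    rw [hd] at h
    have : Int.gcd i M = 0 := by exact_mod_cast h
    rw [Int.gcd_eq_zero_iff] at this
    exact hM0 (by exact_mod_cast this.2)
  obtain ⟨i', hi'⟩ : d ∣ i := Int.gcd_dvd_left _ _
  obtain ⟨M', hM'⟩ : d ∣ (M : ℤ) := Int.gcd_dvd_right _ _
  have hM'0 : M' ≠ 0 := by
    rintro rfl
    rw [mul_zero] at hM'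
    exact hM0 (by exact_mod_cast hM')
  have h1 : M' • z = 0 := by
    rw [hz, smul_smul, hi', ← mul_assoc, mul_comm M' d, ← hM', mul_comm, mul_smul, hMw, smul_zero]
  have h2 : (M' * j) • w = 0 := by
    rw [mul_smul, ← hgz, ← map_zsmul, h1, map_zero]
  have h3 : (M : ℤ) ∣ M' * j := by
    rw [hM]
    exact (addOrderOf_dvd_iff_zsmul_eq_zero).2 h2
  obtain ⟨l, hl⟩ := h3
  have h4 : j = d * l := by
    rw [hM', mul_comm d M', mul_assoc] at hl
    exact mul_left_cancel₀ hM'0 hl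
  have hbez : d = i * Int.gcdA i M + M * Int.gcdB i M := Int.gcd_eq_gcd_ab _ _
  have h5 : d • w = Int.gcdA i M • z := by
    rw [hz, smul_smul]
    nth_rewrite 1 [hbez]
    rw [add_smul, mul_comm (M : ℤ), mul_smul _ (M : ℤ), hMw, smul_zero, add_zero, mul_comm]
  refine ⟨l * Int.gcdA i M, ?_⟩
  rw [hgz, h4, mul_comm d l, mul_smul, h5, smul_smul]

end cyc

end Pool.Agent.Q119.Dist
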