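import Pool.Agent.Q119.Dist.Basic

set_option autoImplicit false

/-!
Abelian groups with right distributive centrally essential endomorphism rings.
-/

namespace Pool.Agent.Q119.Dist

universe u

variable {A : Type u} [AddCommGroup A]

section comm

theorem comm_torsion (φ : ℚ →+ A) {a b : AddMonoid.End A} (ha : ∀ z ∈ φ.range, a z ∈ φ.range)
    (hb : ∀ z ∈ φ.range, b z ∈ φ.range) {z : A} (hz : z ∈ φ.range) {N : ℤ} (hN : N ≠ 0)
    (hNz : N • z = 0) : a (b z) = b (a z) := by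
  by_cases hz0 : z = 0
  · rw [hz0]; simp
  have key : ∀ g : AddMonoid.End A, (∀ z ∈ φ.range, g z ∈ φ.range) → ∃ m : ℤ, g z = m • z := by
    intro g hg
    obtain ⟨w, i, j, h1, h2⟩ := loc_cyclic φ hz (hg z hz)
    have hi : i ≠ 0 := by
      rintro rfl
      rw [zero_smul] at h1
      exact hz0 h1
    refine torsion_mul (mul_ne_zero hN hi) ?_ h1 h2
    rw [mul_smul, ← h1, hNz]
  obtain ⟨m, hm⟩ := key a ha
  obtain ⟨n, hn⟩ := key b hb
  rw [hm, hn, map_zsmul, map_zsmul, hm, hn, smul_smul, smul_smul, mul_comm]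

theorem comm_torsionFree (φ : ℚ →+ A) {a b : AddMonoid.End A}
    (ha : ∀ z ∈ φ.range, a z ∈ φ.range) (hb : ∀ z ∈ φ.range, b z ∈ φ.range) {z : A}
    (hz : z ∈ φ.range) (htf : ∀ (n : ℤ), n ≠ 0 → ∀ z ∈ φ.range, n • z = 0 → z = 0) :
    a (b z) = b (a z) := by
  by_cases hz0 : z = 0
  · rw [hz0]; simp
  have key : ∀ g : AddMonoid.End A, (∀ z ∈ φ.range, g z ∈ φ.range) →
      ∃ i j : ℤ, i ≠ 0 ∧ i • g z = j • z := by
    intro g hg
    obtain ⟨w, i, j, h1, h2⟩ := loc_cyclic φ hz (hg z hz)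
    refine ⟨i, j, ?_, ?_⟩
    · rintro rfl
      rw [zero_smul] at h1
      exact hz0 h1
    · rw [h2, h1, smul_smul, smul_smul, mul_comm]
  obtain ⟨i, j, hi, hij⟩ := key a ha
  obtain ⟨k, l, hk, hkl⟩ := key b hb
  have h1 : (i * k) • (a (b z)) = (i * k) • (b (a z)) := by
    have e1 : (i * k) • (a (b z)) = (l * j) • z := by
      rw [mul_comm i k, mul_comm l j, mul_comm j l, mul_comm k i, mul_smul, ← map_zsmul a k, hkl, map_zsmul,
        smul_smul, mul_comm i l, mul_smul, hij, smul_smul]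
    have e2 : (i * k) • (b (a z)) = (l * j) • z := by
      rw [mul_comm i k, mul_smul, ← map_zsmul b i, hij, map_zsmul, smul_smul, mul_comm k j,
        mul_smul, hkl, smul_smul, mul_comm j l]
    rw [e1, e2]
  have h2 : (i * k) • (a (b z) - b (a z)) = 0 := by rw [smul_sub, h1, sub_self]
  have h3 := htf _ (mul_ne_zero hi hk) _
    (AddSubgroup.sub_mem _ (ha _ (hb z hz)) (hb _ (ha z hz))) h2
  exact sub_eq_zero.1 h3

end comm

section cyclic

theorem dvd_of_smul {p : ℕ} (hp : p.Prime) {k : ℕ} {y : A}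
    (h0 : ((p : ℤ) ^ (k + 1)) • y = 0)
    (h1 : ∀ y' : A, ((p : ℤ) ^ (k + 1)) • y' ≠ ((p : ℤ) ^ k) • y) {n : ℤ} {y' : A}
    (h : n • y = ((p : ℤ) ^ (k + 1)) • y') : ((p : ℤ) ^ (k + 1)) ∣ n := by
  set g : ℕ := Int.gcd n ((p : ℤ) ^ (k + 1)) with hg
  have hgN : g ∣ p ^ (k + 1) := by
    have : (g : ℤ) ∣ ((p ^ (k + 1) : ℕ) : ℤ) := by
      push_cast
      exact Int.gcd_dvd_right _ _
    exact_mod_cast this
  obtain ⟨j, hj, hgj⟩ := (Nat.dvd_prime_pow hp).1 hgN
  by_cases hjk : j = k + 1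
  · have : (g : ℤ) ∣ n := Int.gcd_dvd_left _ _
    rw [hgj, hjk] at this
    push_cast at this
    exact this
  · exfalso
    have hjk' : j ≤ k := by omega
    have hbez : (g : ℤ) = n * Int.gcdA n ((p : ℤ) ^ (k + 1))
        + (p : ℤ) ^ (k + 1) * Int.gcdB n ((p : ℤ) ^ (k + 1)) := Int.gcd_eq_gcd_ab _ _
    have h2 : (g : ℤ) • y = ((p : ℤ) ^ (k + 1)) • (Int.gcdA n ((p : ℤ) ^ (k + 1)) • y') := by
      rw [hbez, add_smul, mul_comm n, mul_smul, h, mul_comm ((p : ℤ) ^ (k + 1)) (Int.gcdB _ _),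
        mul_smul (Int.gcdB _ _), h0, smul_zero, add_zero, smul_comm]
    apply h1 (((p : ℤ) ^ (k - j)) • (Int.gcdA n ((p : ℤ) ^ (k + 1)) • y'))
    rw [smul_comm, ← h2, hgj, smul_smul]
    push_cast
    rw [← pow_add]
    congr 2
    omega

/-- The divisibility of the circle. -/
theorem circle_div (N : ℚ) : ∀ n : ℤ, n ≠ 0 → ∀ q : AddCircle N, ∃ q' : AddCircle N, n • q' = q := by
  intro n hn q
  obtain ⟨r, rfl⟩ := QuotientAddGroup.mk_surjective q
  refine ⟨((r / n : ℚ) : AddCircle N), ?_⟩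
  have hn' : (n : ℚ) ≠ 0 := by exact_mod_cast hn
  have h1 : n • ((r / n : ℚ) : AddCircle N) = ((n • (r / n) : ℚ) : AddCircle N) := rfl
  rw [h1]
  have h2 : n • (r / n) = r := by
    rw [zsmul_eq_mul]
    field_simp
  rw [h2]

/-- A cyclic subgroup whose socle has the right height is a retract. -/
theorem exists_retract_cyclic {p : ℕ} (hp : p.Prime) {k : ℕ} {y : A}
    (h0 : ((p : ℤ) ^ (k + 1)) • y = 0)
    (h1 : ∀ y' : A, ((p : ℤ) ^ (k + 1)) • y' ≠ ((p : ℤ) ^ k) • y) :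
    ∃ f : AddMonoid.End A, (∀ a, ∃ m : ℤ, f a = m • y) ∧ f y = y := by
  set N : ℤ := (p : ℤ) ^ (k + 1) with hN
  have hN0 : (N : ℚ) ≠ 0 := by
    rw [hN]
    push_cast
    exact pow_ne_zero _ (by exact_mod_cast hp.ne_zero)
  let S : AddSubgroup A := (zsmulAddGroupHom N : A →+ A).range
  let mk : A →+ A ⧸ S := QuotientAddGroup.mk' S
  obtain ⟨h, hh⟩ := extend_cyclic (circle_div (N : ℚ)) (mk y) (((1 : ℚ) : AddCircle (N : ℚ))) (by
    intro n hn
    rw [← map_zsmul] at hn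
    obtain ⟨y', hy'⟩ := (QuotientAddGroup.eq_zero_iff _).1 hn
    obtain ⟨l, hl⟩ := dvd_of_smul hp h0 h1 (show n • y = N • y' from hy'.symm)
    have h2 : n • (((1 : ℚ) : AddCircle (N : ℚ))) = ((n • (1 : ℚ) : ℚ) : AddCircle (N : ℚ)) := rfl
    rw [h2, AddCircle.coe_eq_zero_iff]
    refine ⟨l, ?_⟩
    rw [zsmul_eq_mul, zsmul_eq_mul, hl, ← hN]
    push_cast
    ring)
  have hex : ∀ a, ∃ m : ℤ, h (mk a) = ((m : ℚ) : AddCircle (N : ℚ)) := by
    intro a
    obtain ⟨r, hr⟩ := QuotientAddGroup.mk_surjective (h (mk a))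
    have h2 : N • h (mk a) = 0 := by
      rw [← map_zsmul, ← map_zsmul]
      have : mk (N • a) = 0 := (QuotientAddGroup.eq_zero_iff _).2 ⟨a, rfl⟩
      rw [this, map_zero]
    rw [← hr] at h2
    have h3 : ((N • r : ℚ) : AddCircle (N : ℚ)) = 0 := h2
    rw [AddCircle.coe_eq_zero_iff] at h3
    obtain ⟨l, hl⟩ := h3
    refine ⟨l, ?_⟩
    rw [← hr]
    have h4 : r = l := by
      rw [zsmul_eq_mul, zsmul_eq_mul, mul_comm] at hl
      exact (mul_left_cancel₀ hN0 hl).symm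
    rw [h4]
  choose c hc using hex
  have key : ∀ (a : A) (m : ℤ), h (mk a) = ((m : ℚ) : AddCircle (N : ℚ)) → c a • y = m • y := by
    intro a m hm
    have h2 : (((c a : ℚ) - m : ℚ) : AddCircle (N : ℚ)) = 0 := by
      rw [AddCircle.coe_sub, ← hc, ← hm, sub_self]
    rw [AddCircle.coe_eq_zero_iff] at h2
    obtain ⟨l, hl⟩ := h2
    have h3 : c a - m = l * N := by
      rw [zsmul_eq_mul] at hl
      exact_mod_cast hl.symm
    have h4 : (c a - m) • y = 0 := by rw [h3, mul_smul, h0, smul_zero]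
    rw [sub_smul, sub_eq_zero] at h4
    exact h4
  refine ⟨⟨⟨fun a => c a • y, ?_⟩, ?_⟩, fun a => ⟨c a, rfl⟩, ?_⟩
  · rw [key 0 0 (by simp), zero_smul]
  · intro a b
    change c (a + b) • y = c a • y + c b • y
    rw [key (a + b) (c a + c b) (by rw [map_add, map_add, hc, hc]; push_cast; rfl), add_smul]
  · change c y • y = y
    rw [key y 1 (by rw [hh]; simp), one_smul]

variable (hI : ∀ f : AddMonoid.End A, f * f = f → ∀ g, f * g = g * f)

include hI

theorem cyclic_torsion {p : ℕ} (hp : p.Prime) {k : ℕ} {y : A}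
    (h0 : ((p : ℤ) ^ (k + 1)) • y = 0)
    (h1 : ∀ y' : A, ((p : ℤ) ^ (k + 1)) • y' ≠ ((p : ℤ) ^ k) • y) {f : AddMonoid.End A}
    (hf1 : ∀ a, ∃ m : ℤ, f a = m • y) (hf2 : f y = y) (m : ℕ) (z : A)
    (hz : ((p : ℤ) ^ m) • z = 0) : f z = z := by
  have hff : f * f = f := by
    apply AddMonoidHom.ext
    intro a
    change f (f a) = f a
    obtain ⟨m, hm⟩ := hf1 a
    rw [hm, map_zsmul, hf2]
  have base : ∀ z' : A, f z' = 0 → (p : ℤ) • z' = 0 → z' = 0 := by
    intro z' hfz hpz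
    obtain ⟨g, hg⟩ := cyclic_hom y z' (fun n hn => by
      obtain ⟨l, hl⟩ := dvd_of_smul hp h0 h1 (n := n) (y' := 0) (by rw [hn, smul_zero])
      rw [hl, pow_succ, mul_assoc, mul_comm (p : ℤ) l, ← mul_assoc, mul_smul, hpz, smul_zero])
    have hf3 : ∀ a, f a ∈ AddSubgroup.zmultiples y := fun a => by
      obtain ⟨m, hm⟩ := hf1 a
      exact AddSubgroup.mem_zmultiples_iff.2 ⟨m, hm.symm⟩
    let h : AddMonoid.End A := g.comp (AddMonoidHom.codRestrict f _ hf3)
    have hval : ∀ (a : A) (m : ℤ), f a = m • y → h a = m • z' := by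
      intro a m hm
      rw [← hg m (by rw [← hm]; exact hf3 a)]
      change g ⟨f a, hf3 a⟩ = _
      congr 1
      exact Subtype.ext hm
    have h2 := DFunLike.congr_fun (hI f hff h) y
    change f (h y) = h (f y) at h2
    rw [hf2, hval y 1 (by rw [hf2, one_smul]), one_smul, hfz] at h2
    exact h2.symm
  have step : ∀ (m : ℕ) (z' : A), f z' = 0 → ((p : ℤ) ^ m) • z' = 0 → z' = 0 := by
    intro m
    induction m with
    | zero => intro z' _ h; simpa using h
    | succ m ih =>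
      intro z' hfz h
      apply ih z' hfz
      apply base
      · rw [map_zsmul, hfz, smul_zero]
      · rw [smul_smul, ← pow_succ', h]
  have h2 : z - f z = 0 := by
    apply step m
    · rw [map_sub]
      have : f (f z) = f z := DFunLike.congr_fun hff z
      rw [this, sub_self]
    · rw [smul_sub, ← map_zsmul, hz, map_zero, sub_zero]
  exact (sub_eq_zero.1 h2).symm

/-- The first kind of primes with torsion. -/
def Kind1 (A : Type u) [AddCommGroup A] (p : ℕ) : Prop :=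
  ∃ (y : A) (N : ℤ) (f : AddMonoid.End A), N ≠ 0 ∧ N • y = 0 ∧ (∀ a, ∃ m : ℤ, f a = m • y) ∧
    f y = y ∧ (∀ (m : ℕ) (z : A), ((p : ℤ) ^ m) • z = 0 → f z = z)

/-- The second kind of primes with torsion. -/
def Kind2 (A : Type u) [AddCommGroup A] (p : ℕ) : Prop :=
  (∃ x : A, (p : ℤ) • x = 0 ∧ x ≠ 0) ∧
    ∀ x : A, (p : ℤ) • x = 0 → ∀ k : ℕ, ∃ y : A, ((p : ℤ) ^ k) • y = x

theorem trichotomy {p : ℕ} (hp : p.Prime) :
    (∀ x : A, (p : ℤ) • x = 0 → x = 0) ∨ Kind1 A p ∨ Kind2 A p := by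
  classical
  by_cases hT0 : ∀ x : A, (p : ℤ) • x = 0 → x = 0
  · exact Or.inl hT0
  right
  push Not at hT0
  by_cases h2 : ∀ x : A, (p : ℤ) • x = 0 → ∀ k : ℕ, ∃ y : A, ((p : ℤ) ^ k) • y = x
  · exact Or.inr ⟨hT0, h2⟩
  left
  push Not at h2
  obtain ⟨x, hx, k0, hk0⟩ := h2
  have hex : ∃ k : ℕ, ∀ y : A, ((p : ℤ) ^ k) • y ≠ x := ⟨k0, hk0⟩
  have hspec := Nat.find_spec hex
  have hmin := fun m => Nat.find_min (H := hex) (m := m)
  set K := Nat.find hex with hK
  have hK0 : K ≠ 0 := by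
    intro h
    rw [h] at hspec
    exact hspec x (by simp)
  obtain ⟨k, hk⟩ := Nat.exists_eq_succ_of_ne_zero hK0
  have h3 := hmin k (by omega)
  push Not at h3
  obtain ⟨y, hy⟩ := h3
  have h0 : ((p : ℤ) ^ (k + 1)) • y = 0 := by
    rw [pow_succ', mul_smul, hy, hx]
  have h1 : ∀ y' : A, ((p : ℤ) ^ (k + 1)) • y' ≠ ((p : ℤ) ^ k) • y := by
    intro y'
    rw [hy]
    have := hspec y'
    rwa [hk] at this
  obtain ⟨f, hf1, hf2⟩ := exists_retract_cyclic hp h0 h1
  exact ⟨y, _, f, pow_ne_zero _ (by exact_mod_cast hp.ne_zero), h0, hf1, hf2,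
    cyclic_torsion hI hp h0 h1 hf1 hf2⟩

end cyclic

section kinds

variable (hI : ∀ f : AddMonoid.End A, f * f = f → ∀ g, f * g = g * f)

include hI

theorem kind1_comm {p : ℕ} (_h : Kind1 A p) (g : AddMonoid.End A) :
    ∀ f : AddMonoid.End A, (∃ y : A, (∀ a, ∃ m : ℤ, f a = m • y) ∧ f y = y) → f * g = g * f := by
  rintro f ⟨y, h1, h2⟩
  apply hI
  apply AddMonoidHom.ext
  intro a
  change f (f a) = f a
  obtain ⟨m, hm⟩ := h1 a
  rw [hm, map_zsmul, h2]

theorem alpha1 {p : ℕ} (h : Kind1 A p) (w : AddMonoid.End A) (h1 : ∀ a, (p : ℤ) • w a = 0)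
    (h2 : ∀ (z : A) (n : ℤ), n ≠ 0 → n • z = 0 → w z = 0) (a : A) : w a = 0 := by
  obtain ⟨y, N, f, hN, hNy, hf1, hf2, hf3⟩ := id h
  have h3 := hf3 1 (w a) (by rw [pow_one]; exact h1 a)
  have h4 : f (w a) = w (f a) := DFunLike.congr_fun (kind1_comm hI h w f ⟨y, hf1, hf2⟩) a
  obtain ⟨m, hm⟩ := hf1 a
  rw [← h3, h4, hm, map_zsmul, h2 y N hN hNy, smul_zero]

omit hI in
theorem beta1 {p : ℕ} (h : Kind1 A p) : ∃ N : ℤ, N ≠ 0 ∧ ∀ s : A, (p : ℤ) • N • s = 0 →
    N • s = 0 := by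
  obtain ⟨y, N, f, hN, hNy, hf1, hf2, hf3⟩ := h
  refine ⟨N, hN, fun s hs => ?_⟩
  rw [← hf3 1 (N • s) (by rw [pow_one]; exact hs), map_zsmul]
  obtain ⟨m, hm⟩ := hf1 s
  rw [hm, smul_comm, hNy, smul_zero]

theorem kappa1 {p : ℕ} (h : Kind1 A p) (a b : AddMonoid.End A) {m : ℕ} {z : A}
    (hz : ((p : ℤ) ^ m) • z = 0) : a (b z) = b (a z) := by
  obtain ⟨y, N, f, hN, hNy, hf1, hf2, hf3⟩ := id h
  have key : ∀ g : AddMonoid.End A, ∃ n : ℤ, g y = n • y := by
    intro g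
    have h4 : f (g y) = g (f y) := DFunLike.congr_fun (kind1_comm hI h g f ⟨y, hf1, hf2⟩) y
    obtain ⟨n, hn⟩ := hf1 (g y)
    exact ⟨n, by rw [← hn, h4, hf2]⟩
  obtain ⟨n, hn⟩ := hf1 z
  rw [hf3 m z hz] at hn
  obtain ⟨i, hi⟩ := key a
  obtain ⟨j, hj⟩ := key b
  rw [hn, map_zsmul, map_zsmul, map_zsmul, map_zsmul, hi, hj, map_zsmul, map_zsmul, hi, hj,
    smul_smul j i, smul_smul i j, mul_comm]

omit hI in
/-- The primary component is divisible for the second kind. -/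
theorem kind2_div {p : ℕ} (hp : p.Prime) (h : Kind2 A p) : ∃ D : AddSubgroup A,
    (∀ z, z ∈ D ↔ ∃ m : ℕ, ((p : ℤ) ^ m) • z = 0) ∧ Div D := by
  let D : AddSubgroup A :=
    { carrier := {z | ∃ m : ℕ, ((p : ℤ) ^ m) • z = 0}
      zero_mem' := ⟨0, by simp⟩
      add_mem' := by
        rintro a b ⟨m, hm⟩ ⟨n, hn⟩
        refine ⟨m + n, ?_⟩
        rw [smul_add, pow_add, mul_smul _ _ b, hn, smul_zero, mul_comm, mul_smul, hm, smul_zero,
          add_zero]
      neg_mem' := by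
        rintro a ⟨m, hm⟩
        exact ⟨m, by rw [smul_neg, hm, neg_zero]⟩ }
  refine ⟨D, fun z => Iff.rfl, ?_⟩
  have hpd : ∀ (m : ℕ) (z : A), ((p : ℤ) ^ m) • z = 0 → ∃ y ∈ D, (p : ℤ) • y = z := by
    intro m
    induction m with
    | zero =>
      intro z hz
      exact ⟨0, D.zero_mem, by rw [smul_zero]; simpa using hz.symm⟩
    | succ m ih =>
      intro z hz
      have h1 : (p : ℤ) • ((p : ℤ) ^ m • z) = 0 := by rw [smul_smul, ← pow_succ', hz]
      obtain ⟨y, hy⟩ := h.2 _ h1 (m + 1)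
      have h2 : ((p : ℤ) ^ m) • (z - (p : ℤ) • y) = 0 := by
        rw [smul_sub, smul_smul, ← pow_succ, hy, sub_self]
      obtain ⟨y', hy', hpy'⟩ := ih _ h2
      have hyD : y ∈ D := ⟨m + 2, by
        rw [show m + 2 = (m + 1) + 1 from rfl, pow_succ' (p : ℤ) (m + 1), mul_smul, hy, h1]⟩
      exact ⟨y' + y, D.add_mem hy' hyD, by rw [smul_add, hpy']; abel⟩
  apply div_of_prime
  intro q hq z hz
  by_cases hqp : q = p
  · subst hqp
    obtain ⟨m, hm⟩ := hz
    exact hpd m z hm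
  · obtain ⟨m, hm⟩ := id hz
    have hcop : IsCoprime (q : ℤ) ((p : ℤ) ^ m) :=
      IsCoprime.pow_right (Nat.isCoprime_iff_coprime.2 ((Nat.coprime_primes hq hp).2 hqp))
    obtain ⟨s, t, hst⟩ := hcop
    refine ⟨s • z, D.zsmul_mem hz s, ?_⟩
    have h1 : z = (s * q + t * (p : ℤ) ^ m) • z := by rw [hst, one_smul]
    nth_rewrite 2 [h1]
    rw [add_smul, mul_smul t, hm, smul_zero, add_zero, smul_smul, mul_comm]

/-- The package for the second kind. -/
theorem kind2_retract {p : ℕ} (hp : p.Prime) (h : Kind2 A p) :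
    ∃ (φ : ℚ →+ A) (f : AddMonoid.End A), (∀ a, f a ∈ φ.range) ∧ (∀ a ∈ φ.range, f a = a) ∧
      (∀ z ∈ φ.range, ∃ m : ℕ, ((p : ℤ) ^ m) • z = 0) ∧
      ∀ c : A, f c = 0 → ∃ n : ℤ, ¬ (p : ℤ) ∣ n ∧ n • c = 0 := by
  obtain ⟨D, hD, hdiv⟩ := kind2_div hp h
  obtain ⟨⟨x, hx, hx0⟩, _⟩ := id h
  obtain ⟨φ, hφ1, hφ2⟩ := exists_rat hdiv ((hD x).2 ⟨1, by rw [pow_one]; exact hx⟩)
  obtain ⟨f, hf1, hf2⟩ := exists_retract (div_range φ)
  refine ⟨φ, f, hf1, hf2, ?_, ?_⟩
  · rintro _ ⟨q, rfl⟩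
    exact (hD _).1 (hφ2 q)
  · intro c hc
    by_contra hcon
    push Not at hcon
    apply hx0
    apply ker_retract hI (div_range φ) hf1 hf2 hc (t := x) ⟨1, hφ1⟩
    intro n hn
    by_cases hpn : (p : ℤ) ∣ n
    · obtain ⟨l, rfl⟩ := hpn
      rw [mul_comm, mul_smul, hx, smul_zero]
    · exact absurd hn (hcon n hpn)

theorem kind2_inv {p : ℕ} (hp : p.Prime) (h : Kind2 A p) (a b : AddMonoid.End A) :
    ∃ f : AddMonoid.End A, (∀ z, a (b (f z)) = b (a (f z))) ∧
      ∀ c : A, ∃ n : ℤ, ¬ (p : ℤ) ∣ n ∧ n • (c - f c) = 0 := by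
  obtain ⟨φ, f, hf1, hf2, htor, hker⟩ := kind2_retract hI hp h
  refine ⟨f, fun z => ?_, fun c => ?_⟩
  · obtain ⟨m, hm⟩ := htor _ (hf1 z)
    exact comm_torsion φ (fun z hz => retract_inv hI hf1 hf2 a hz)
      (fun z hz => retract_inv hI hf1 hf2 b hz) (hf1 z)
      (pow_ne_zero m (by exact_mod_cast hp.ne_zero)) hm
  · apply hker
    rw [map_sub, hf2 _ (hf1 c), sub_self]

theorem kappa2 {p : ℕ} (hp : p.Prime) (h : Kind2 A p) (a b : AddMonoid.End A) {m : ℕ} {z : A}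
    (hz : ((p : ℤ) ^ m) • z = 0) : a (b z) = b (a z) := by
  obtain ⟨f, hf, hker⟩ := kind2_inv hI hp h a b
  obtain ⟨n, hpn, hn⟩ := hker z
  have h1 : ((p : ℤ) ^ m) • (z - f z) = 0 := by
    rw [smul_sub, ← map_zsmul, hz, map_zero, sub_zero]
  have hcop : IsCoprime n ((p : ℤ) ^ m) := by
    apply IsCoprime.pow_right
    rw [isCoprime_comm]
    exact (Prime.coprime_iff_not_dvd (Nat.prime_iff_prime_int.1 hp)).2 hpn
  obtain ⟨s, t, hst⟩ := hcop
  have h2 : z - f z = 0 := by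
    have : z - f z = (s * n + t * (p : ℤ) ^ m) • (z - f z) := by rw [hst, one_smul]
    rw [this, add_smul, mul_smul, hn, mul_smul, h1, smul_zero, smul_zero, add_zero]
  rw [sub_eq_zero.1 h2]
  exact hf z

theorem kappa {p : ℕ} (hp : p.Prime) (a b : AddMonoid.End A) {m : ℕ} {z : A}
    (hz : ((p : ℤ) ^ m) • z = 0) : a (b z) = b (a z) := by
  rcases trichotomy hI hp with h | h | h
  · have : z = 0 := by
      clear hI
      induction m generalizing z with
      | zero => simpa using hz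
      | succ m ih =>
        apply ih
        apply h
        rw [smul_smul, ← pow_succ', hz]
    rw [this]; simp
  · exact kappa1 hI h a b hz
  · exact kappa2 hI hp h a b hz

/-- Commutators kill the torsion elements. -/
theorem comm_tor (a b : AddMonoid.End A) (z : A) (n : ℤ) (hn : n ≠ 0) (hz : n • z = 0) :
    a (b z) = b (a z) := by
  have h1 : ∀ n : ℕ, n ≠ 0 → ∀ z : A, (n : ℤ) • z = 0 → a (b z) = b (a z) := by
    intro n
    induction n using Nat.recOnPosPrimePosCoprime with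
    | zero => exact fun h => absurd rfl h
    | one =>
      intro _ z hz
      have hz0 : z = 0 := by simpa using hz
      rw [hz0]; simp
    | prime_pow p m hp _ =>
      intro _ z hz
      push_cast at hz
      exact kappa hI hp a b hz
    | coprime c d hc hd hcd ihc ihd =>
      intro _ z hz
      obtain ⟨s, t, hst⟩ := Nat.isCoprime_iff_coprime.2 hcd
      have h1 : (d : ℤ) • ((c : ℤ) • z) = 0 := by
        rw [smul_smul, mul_comm]
        exact_mod_cast hz
      have h2 : (c : ℤ) • ((d : ℤ) • z) = 0 := by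
        rw [smul_smul]
        exact_mod_cast hz
      have e1 := ihd (by omega) _ h1
      have e2 := ihc (by omega) _ h2
      have e3 : z = s • ((c : ℤ) • z) + t • ((d : ℤ) • z) := by
        rw [smul_smul, smul_smul, ← add_smul, hst, one_smul]
      rw [e3]
      simp only [map_add, map_zsmul] at e1 e2 ⊢
      rw [e1, e2]
  obtain ⟨m, rfl | rfl⟩ := n.eq_nat_or_neg
  · exact h1 m (by exact_mod_cast hn) z hz
  · exact h1 m (by rintro rfl; simp at hn) z (by rwa [neg_smul, neg_eq_zero] at hz)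

/-- The second kind of primes forces commutativity. -/
theorem comm_of_kind2 {p : ℕ} (hp : p.Prime) (h : Kind2 A p) (a b : AddMonoid.End A) (z : A) :
    a (b z) = b (a z) := by
  obtain ⟨f, hf, hker⟩ := kind2_inv hI hp h a b
  obtain ⟨n, hpn, hn⟩ := hker z
  have hn0 : n ≠ 0 := by rintro rfl; simp at hpn
  have h1 := comm_tor hI a b _ n hn0 hn
  have h2 := hf z
  simp only [map_sub] at h1
  rw [h2] at h1
  exact sub_left_inj.1 h1

end kinds

/-- The main theorem. -/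
theorem main (hCE : CE (AddMonoid.End A)) (hRD : RD (AddMonoid.End A)) (a b : AddMonoid.End A) :
    a * b = b * a := by
  by_contra hab
  have hI : ∀ f : AddMonoid.End A, f * f = f → ∀ g, f * g = g * f := fun f hf g =>
    idem_central hCE hf g
  -- no prime is of the second kind
  have hno2 : ∀ p : ℕ, p.Prime → ¬ Kind2 A p := fun p hp h =>
    hab (AddMonoidHom.ext (comm_of_kind2 hI hp h a b))
  have hα : ∀ p : ℕ, p.Prime → ∀ w : AddMonoid.End A, (∀ a, (p : ℤ) • w a = 0) →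
      (∀ (z : A) (n : ℤ), n ≠ 0 → n • z = 0 → w z = 0) → ∀ a, w a = 0 := by
    intro p hp w h1 h2 a
    rcases trichotomy hI hp with h | h | h
    · exact h _ (h1 a)
    · exact alpha1 hI h w h1 h2 a
    · exact absurd h (hno2 p hp)
  have hβ : ∀ p : ℕ, p.Prime → ∃ N : ℤ, N ≠ 0 ∧ ∀ s : A, (p : ℤ) • N • s = 0 → N • s = 0 := by
    intro p hp
    rcases trichotomy hI hp with h | h | h
    · exact ⟨1, one_ne_zero, fun s hs => by rw [one_smul] at hs ⊢; exact h s hs⟩
    · exact beta1 h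
    · exact absurd h (hno2 p hp)
  obtain ⟨e, c, he, he0, hee, hec⟩ := exists_square_zero hCE hab
  have hetor : ∀ (z : A) (n : ℤ), n ≠ 0 → n • z = 0 → e z = 0 := by
    intro z n hn hz
    rw [hec]
    change a (b (c z)) - b (a (c z)) = 0
    rw [comm_tor hI a b (c z) n hn (by rw [← map_zsmul, hz, map_zero]), sub_self]
  -- homomorphisms killed by a number
  have hα' : ∀ n : ℕ, n ≠ 0 → ∀ w : AddMonoid.End A, (∀ a, (n : ℤ) • w a = 0) →
      (∀ (z : A) (n : ℤ), n ≠ 0 → n • z = 0 → w z = 0) → ∀ a, w a = 0 := by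
    intro n
    induction n using Nat.recOnMul with
    | zero => exact fun h => absurd rfl h
    | one => exact fun _ w h _ a => by simpa using h a
    | prime q hq => exact fun _ => hα q hq
    | mul m n ihm ihn =>
      intro hmn w h1 h2
      apply ihn (right_ne_zero_of_mul hmn) w _ h2
      intro a
      have h3 := ihm (left_ne_zero_of_mul hmn) ((n : ℤ) • w) (fun a => by
        change (m : ℤ) • ((n : ℤ) • w a) = 0
        rw [smul_smul]
        exact_mod_cast h1 a) (fun z k hk hz => by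
        change (n : ℤ) • w z = 0
        rw [h2 z k hk hz, smul_zero]) a
      exact h3
  have hdivi : ∀ n : ℕ, n ≠ 0 → ∃ s : AddMonoid.End A, ∀ z, e z = (n : ℤ) • s z := by
    intro n hn
    obtain ⟨u', v, s, t, huv, h1, h2⟩ := dist_crit hRD e (n : AddMonoid.End A)
    have h3 : ∀ z, (n : ℤ) • (v * e) z = 0 := by
      have h4 : (n : AddMonoid.End A) * (v * e) = 0 := by
        rw [← mul_assoc, h2, mul_assoc, he t, ← mul_assoc, hee, zero_mul]
      intro z
      have h5 := DFunLike.congr_fun h4 z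
      have h6 : ((n : AddMonoid.End A) * (v * e)) z = (n : ℤ) • (v * e) z := by
        change (n : AddMonoid.End A) ((v * e) z) = (n : ℤ) • (v * e) z
        rw [AddMonoid.End.natCast_apply, natCast_zsmul]
      rw [h6] at h5
      exact h5
    have h4 : ∀ z, (v * e) z = 0 := hα' n hn (v * e) h3 (fun z k hk hz => by
      change v (e z) = 0
      rw [hetor z k hk hz, map_zero])
    refine ⟨s, fun z => ?_⟩
    have h5 : e = (n : AddMonoid.End A) * s := by
      have h6 : v * e = 0 := AddMonoidHom.ext h4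
      calc e = e * (u' + v) := by rw [huv, mul_one]
        _ = e * u' + v * e := by rw [mul_add, he v]
        _ = (n : AddMonoid.End A) * s := by rw [h6, add_zero, h1]
    rw [h5]
    change (n : AddMonoid.End A) (s z) = (n : ℤ) • s z
    rw [AddMonoid.End.natCast_apply, natCast_zsmul]
  -- the first Ulm subgroup
  let D : AddSubgroup A :=
    { carrier := {y | ∀ n : ℤ, n ≠ 0 → ∃ y', n • y' = y}
      zero_mem' := fun n _ => ⟨0, smul_zero n⟩
      add_mem' := fun {x y} hx hy n hn => by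
        obtain ⟨x', hx'⟩ := hx n hn
        obtain ⟨y', hy'⟩ := hy n hn
        exact ⟨x' + y', by rw [smul_add, hx', hy']⟩
      neg_mem' := fun {x} hx n hn => by
        obtain ⟨x', hx'⟩ := hx n hn
        exact ⟨-x', by rw [smul_neg, hx']⟩ }
  have hDtf : ∀ q : ℕ, q.Prime → ∀ y ∈ D, (q : ℤ) • y = 0 → y = 0 := by
    intro q hq y hy hqy
    obtain ⟨N, hN, hβ'⟩ := hβ q hq
    obtain ⟨y', hy'⟩ := hy N hN
    rw [← hy'] at hqy ⊢
    exact hβ' y' hqy
  have hDtf' : ∀ n : ℕ, n ≠ 0 → ∀ y ∈ D, (n : ℤ) • y = 0 → y = 0 := by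
    intro n
    induction n using Nat.recOnMul with
    | zero => exact fun h => absurd rfl h
    | one => exact fun _ y _ h => by simpa using h
    | prime q hq => exact fun _ => hDtf q hq
    | mul m n ihm ihn =>
      intro hmn y hy h
      apply ihn (right_ne_zero_of_mul hmn) y hy
      apply ihm (left_ne_zero_of_mul hmn) _ (D.zsmul_mem hy n)
      rw [smul_smul]
      exact_mod_cast h
  have hDtf'' : ∀ n : ℤ, n ≠ 0 → ∀ y ∈ D, n • y = 0 → y = 0 := by
    intro n hn y hy h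
    obtain ⟨m, rfl | rfl⟩ := n.eq_nat_or_neg
    · exact hDtf' m (by exact_mod_cast hn) y hy h
    · exact hDtf' m (by rintro rfl; simp at hn) y hy (by rwa [neg_smul, neg_eq_zero] at h)
  have hDdiv : Div D := by
    apply div_of_prime
    intro q hq y hy
    have hq0 : (q : ℤ) ≠ 0 := by exact_mod_cast hq.ne_zero
    obtain ⟨N, hN, hβ'⟩ := hβ q hq
    obtain ⟨y0, hy0⟩ := hy (q * N) (mul_ne_zero hq0 hN)
    refine ⟨N • y0, ?_, by rw [smul_smul, hy0]⟩
    intro n hn
    obtain ⟨y1, hy1⟩ := hy (q * N * n) (mul_ne_zero (mul_ne_zero hq0 hN) hn)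
    refine ⟨N • y1, ?_⟩
    have h1 : N • (y0 - n • y1) = 0 := by
      apply hβ'
      rw [smul_smul, smul_sub, hy0, smul_smul, hy1, sub_self]
    rw [smul_sub, sub_eq_zero] at h1
    rw [h1, smul_comm]
  obtain ⟨z0, hz0⟩ : ∃ z, e z ≠ 0 := by
    by_contra hcon
    push Not at hcon
    exact he0 (AddMonoidHom.ext hcon)
  have hz0D : e z0 ∈ D := by
    intro n hn
    obtain ⟨m, rfl | rfl⟩ := n.eq_nat_or_neg
    · obtain ⟨s, hs⟩ := hdivi m (by exact_mod_cast hn)
      exact ⟨s z0, (hs z0).symm⟩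
    · obtain ⟨s, hs⟩ := hdivi m (by rintro rfl; simp at hn)
      exact ⟨-s z0, by rw [hs z0]; simp⟩
  obtain ⟨φ, hφ1, hφ2⟩ := exists_rat hDdiv hz0D
  obtain ⟨f, hf1, hf2⟩ := exists_retract (div_range φ)
  have htf : ∀ n : ℤ, n ≠ 0 → ∀ z ∈ φ.range, n • z = 0 → z = 0 := by
    rintro n hn _ ⟨q, rfl⟩ h
    exact hDtf'' n hn _ (hφ2 q) h
  apply hab
  apply AddMonoidHom.ext
  intro z
  change a (b z) = b (a z)
  have h1 : a (b (f z)) = b (a (f z)) :=
    comm_torsionFree φ (fun z hz => retract_inv hI hf1 hf2 a hz)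
      (fun z hz => retract_inv hI hf1 hf2 b hz) (hf1 z) htf
  have h2 : a (b (z - f z)) = b (a (z - f z)) := by
    by_cases hex : ∃ n : ℤ, n ≠ 0 ∧ n • (z - f z) = 0
    · obtain ⟨n, hn, hnz⟩ := hex
      exact comm_tor hI a b _ n hn hnz
    · exfalso
      push Not at hex
      apply hz0
      apply ker_retract hI (div_range φ) hf1 hf2 (b := z - f z) (t := e z0)
      · rw [map_sub, hf2 _ (hf1 z), sub_self]
      · exact ⟨1, hφ1⟩
      · intro n hn
        have : n = 0 := by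
          by_contra hn0
          exact hex n hn0 hn
        rw [this, zero_smul]
  simp only [map_sub] at h2
  rw [h1] at h2
  exact sub_left_inj.1 h2

end Pool.Agent.Q119.Dist
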